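import Mathlib
import Pool.Agent.R947.CR.Main

/-!
# Local PEPS approximation for all commuting interactions

Let `h` be any Hermitian finite-range interaction (possibly frustrated) whose translates commute with
each other on all large tori and whose Hamiltonians have unique ground states `ψ L` with a uniform
gap. No assumption is made on the dependence of the local states on `L` (their convergence is not
known). Then Q1 has a positive answer.

Theorem. For every finite region `R`:
1. the reduced state of `ψ L` on `R` takes only finitely many values for large `L`, and the value is
   followed by translation invariant scalar tensor networks: there are finitely many networks, one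
   for each value, such that for every large `L` the network of the value at `L` is nonzero on the
   `L × L` torus and dominates all the others;
2. there is `C` such that for every `ε > 0` ONE translation invariant tensor with bond dimension
   `C * bondDim d R ε` (which is `exp (O(1 / ε²))`) has nonzero PEPS vectors on all large tori and
   reproduces the reduced states of all large tori on `R` up to `ε` in trace norm.

Proof. In `ψ L` all translates of `h` have the same eigenvalue `μ_L`, one of the finitely many
eigenvalues of `h`. Let `Π` be the product of the spectral projections for `μ` of the translates of
`h` near a local operator `O`. Then `T = Π O Π` commutes with all translates of `h`, so for `μ = μ_L`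
the vector `ψ L` is an eigenvector of `T`, and the eigenvalue is the expectation of `O` in `ψ L`: it
lies in the finite spectrum of `T`. For an eigenvalue `λ` of `T` let `Z` be the polynomial of `T`
which is `1` at `λ` and `0` at the other eigenvalues and let `X = Z Π`. The trace of the product of
all translates of `X`, in any order, is `0` on the `L × L` torus if `μ < μ_L` (the pattern `μ` does not
occur), it is `1` or `0` if `μ = μ_L`, according to whether `λ` is the expectation of `O` or not (the
product is the projection on `ψ L` up to this factor), and at most `C^(L²)` if `μ > μ_L`. A translation
invariant network of finite range sums over all proper colourings `c` of the torus the trace of the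
product of all translates of `X` in the order of their colours; its value is the number of proper
colourings times the value just found. Weighting the networks by `K^(L²)` with `K` large for small
`μ` makes the network of the pair `(μ_L, expectation)` dominate. So the matrix elements of the reduced
states are followed by scalar networks, and the principle of PeriodicMarginals applies.
-/

set_option autoImplicit false

open scoped BigOperators
open Pool.Agent.H4R2
open Pool.Agent.TH64.PerNet (Followed)
open Pool.Agent.Results.MP_0f69bf_mp.PeriodicMarginals (Approximable)

namespace Pool.Agent.Results.MP_0f69bf_mp.CommutingInteractions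

/-- The translates of the interaction `h` commute with each other on all large tori. -/
def Commuting {d : ℕ} (B : Finset (ℤ × ℤ)) (h : Matrix (B → Fin d) (B → Fin d) ℂ) : Prop :=
  ∃ L₀ : ℕ, ∀ (L : ℕ) [NeZero L], L₀ ≤ L → ∀ u v : Site L,
    term B h L u * term B h L v = term B h L v * term B h L u

/-- **Theorem.** -/
theorem result (d : ℕ) (hd : 2 ≤ d) (B : Finset (ℤ × ℤ)) (h : Matrix (B → Fin d) (B → Fin d) ℂ)
    (ψ : ∀ (L : ℕ) [NeZero L], (Site L → Fin d) → ℂ) (hh : h.IsHermitian)
    (hc : Commuting B h) (hgap : GappedFamily B h ψ) (R : Finset (ℤ × ℤ)) :
    (∃ (n : ℕ) (σ : ℕ → Fin n) (ρ : Fin n → Matrix (R → Fin d) (R → Fin d) ℂ) (D L₁ : ℕ),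
      Followed σ D ∧ ∀ (L : ℕ) [NeZero L], L₁ ≤ L → redState R (ψ L) = ρ (σ L)) ∧
    ∃ C : ℕ, ∀ ε : ℝ, 0 < ε → Approximable R ψ ε (C * bondDim d R ε) :=
  CQ947.main CQ947.t_BRG (CQ947.t_RDM CQ947.t_BRG) CQ947.T_FOL d hd B h ψ hh hc hgap R

end Pool.Agent.Results.MP_0f69bf_mp.CommutingInteractions
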