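import Mathlib
import Pool.Agent.R947.SH.All

/-!
# Local PEPS approximation for stabilizer Hamiltonians and for commuting interactions

Let `A` be a finite abelian group with `d` elements (for instance `(ℤ/N)^q`: `q` qudits per site) and
let the basis states of a site be labelled by `A`. A Weyl operator (generalised Pauli operator) on a
finite set of sites is a tensor product of one-site operators `f ↦ (s ↦ χ(s) f(s + a))`, `a ∈ A`, `χ` a
character of `A`.

(I) Let `h` be any Hermitian interaction on a box whose translates commute with each other on all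
large tori, with unique gapped ground states `ψ L`. Then for all large `L` the vector `ψ L` is exactly
a PEPS of a bond dimension `f` which does not depend on `L`; and Q2 has a positive answer for every
region `R` on which the reduced states converge at a polynomial rate.

(II) Let `h` be a Hermitian linear combination of Weyl operators on a box all of whose translates
commute on `ℤ²` (a translation invariant stabilizer Hamiltonian; the coefficients are arbitrary, and
the Hamiltonian may be frustrated), with unique gapped ground states `ψ L` on all large tori. Then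

1. the eigenvalue of each Weyl operator of the interaction in `ψ L` is the same at all positions and
   for all large `L`;
2. every Weyl operator of finite support which commutes with all translates of the Weyl operators of
   the interaction is, up to a phase, a product of finitely many of them (no hidden local degrees of
   freedom);
3. the reduced density matrices of `ψ L` on every finite region `R` are the same for all large `L`;
4. Q1 and Q2 have positive answers: for every region `R` and `0 < ε ≤ 1` one translation invariant
   tensor with bond dimension polynomial in `1 / ε` has nonzero PEPS vectors and approximates the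
   reduced density matrices of `ψ L` on `R` up to `ε` in trace norm, for all `L ≥ poly(1 / ε)`;
5. `ψ L` is exactly a PEPS of bond dimension `f` for all large `L`.

Proof of (II). Labels of Weyl operators of finite support form a module over the Laurent polynomial
ring `ℤ[x^±, y^±]`; let `S` be the submodule generated by the interaction and `P ⊇ S` its commutant.
Uniqueness of the ground state on the torus of side `L` gives `P ⊆ S + (x^L - 1, y^L - 1) V` for all
large `L`; residue fields are finite, so by Krull and Artin-Rees `P = S`. The eigenvalues for two sizes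
differ by a translation invariant character of `S`, which could be obstructed on a torus only by
`S ∩ (x^L - 1, y^L - 1) V`; by rigidity of Koszul homology this is `(x^L - 1, y^L - 1) S`. So all
eigenvalue patterns occur on all large tori and the energy selects the same one. The spectral
projections of commuting terms, multiplied, give the exact PEPS. The polynomial bond dimension of ONE
translation invariant tensor follows from the theorem of GlobalToLocal.
-/

set_option autoImplicit false

open scoped BigOperators
open Pool.Agent.TH235.PP (BoxOp TorOp term normSq IsGappedGround IsPEPS)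
open Pool.Agent.Y738.PE (Close PolyConv EffAll)
open SH947

namespace Pool.Agent.Results.MP_0f69bf_mp.StabilizerHamiltonians

/-- A gapped family with unique ground states: for all large `L` the unit vector `ψ L` spans the
ground space of the Hamiltonian `∑_u τ_u(h)` on the `L × L` torus, and every other eigenvalue lies
above by at least a constant `Δ > 0`. -/
def Gapped {d R : ℕ} (h : BoxOp d R) (ψ : ∀ L : ℕ, (ZMod L × ZMod L → Fin d) → ℂ) : Prop :=
  ∃ Δ : ℝ, 0 < Δ ∧ ∃ L₀ : ℕ, ∀ (L : ℕ) [NeZero L], L₀ ≤ L →
    normSq (ψ L) = 1 ∧ IsGappedGround (Pool.Agent.TH235.PP.ham h L) Δ (ψ L)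

/-- The translates of the interaction commute with each other on all large tori. -/
def Commuting {d R : ℕ} (h : BoxOp d R) : Prop :=
  ∃ L₀ : ℕ, ∀ (L : ℕ) [NeZero L], L₀ ≤ L → ∀ u v : ZMod L × ZMod L,
    (term h u : TorOp d L) * term h v = term h v * term h u

/-- The interaction `∑ c_i W(b_i)` on the `R × R` box. -/
noncomputable def interaction {A : Type} [AddCommGroup A] {d R : ℕ} (e : Fin d ≃ A) {ι : Type}
    [Fintype ι] (b : ι → Fin R × Fin R → Lb A) (c : ι → ℂ) : BoxOp d R :=
  ∑ i, c i • weyl e (b i)

/-- The Weyl operators of finite support on `ℤ²` with labels `u` and `w` commute. -/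
def Commute {A : Type} [AddCommGroup A] (u w : VV A) : Prop := bet u w = bet w u

theorem result :
    -- (I) commuting interactions
    (∀ (d R' : ℕ), 2 ≤ d → ∀ h : BoxOp d (R' + 1), h.IsHermitian → Commuting h →
      ∀ ψ : ∀ L : ℕ, (ZMod L × ZMod L → Fin d) → ℂ, Gapped h ψ →
        (∃ f L₂ : ℕ, ∀ (L : ℕ) [NeZero L], L₂ ≤ L → IsPEPS f (ψ L)) ∧
        ∀ R : Finset (ℤ × ℤ), PolyConv R ψ → EffAll R ψ) ∧
    -- (II) stabilizer Hamiltonians
    (∀ (A : Type) [AddCommGroup A] [Fintype A] (d R' : ℕ), 2 ≤ d → ∀ (e : Fin d ≃ A)
      (ι : Type) [Fintype ι] (b : ι → Fin (R' + 1) × Fin (R' + 1) → Lb A) (c : ι → ℂ),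
      (interaction e b c).IsHermitian →
      (∀ (i j : ι) (v : ℤ × ℤ), Commute (lat (b i)) (tr v (lat (b j)))) →
      ∀ ψ : ∀ L : ℕ, (ZMod L × ZMod L → Fin d) → ℂ, Gapped (interaction e b c) ψ →
        (∃ (lam : ι → ℂ) (L₂ : ℕ), ∀ (L : ℕ) [NeZero L], L₂ ≤ L → ∀ (i : ι) (u : ZMod L × ZMod L),
          (term (weyl e (b i)) u : TorOp d L).mulVec (ψ L) = lam i • ψ L) ∧
        (∀ u : VV A, (∀ (i : ι) (v : ℤ × ℤ), Commute u (tr v (lat (b i)))) →
          u ∈ AddSubgroup.closure {g : VV A | ∃ (i : ι) (v : ℤ × ℤ), g = tr v (lat (b i))}) ∧
        (∀ R : Finset (ℤ × ℤ), ∃ L₂ : ℕ, ∀ (L L' : ℕ) [NeZero L] [NeZero L'], L₂ ≤ L → L₂ ≤ L' →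
          Close R (ψ L) (ψ L') 0) ∧
        (∀ R : Finset (ℤ × ℤ), EffAll R ψ) ∧
        (∃ f L₂ : ℕ, ∀ (L : ℕ) [NeZero L], L₂ ≤ L → IsPEPS f (ψ L))) := by
  constructor
  · rintro d R' hd h hh ⟨L₁, hL₁⟩ ψ ⟨Δ, _, L₀, hg⟩
    obtain ⟨f, L₂, hf⟩ := commuting_peps T_CPE h hh ψ Δ (max L₀ L₁)
      (fun L _ hL => hL₁ L (le_trans (le_max_right _ _) hL))
      (fun L _ hL => hg L (le_trans (le_max_left _ _) hL))
    exact ⟨⟨f, L₂, fun L _ hL => (hf L hL).2⟩, fun R hR => eff_of hd R ψ hR f L₂ hf⟩
  · intro A _ _ d R' hd e ι _ b c hh hc ψ hg
    obtain ⟨Δ, hΔ, L₀, hg⟩ := hg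
    obtain ⟨h1, h2, h3, h4, f, L₂, hf⟩ := stab2 T_WEY T_LOC T_TRM T_EVN T_EXP T_CPE T_CST hd e b c hh
      hc ψ Δ hΔ L₀ hg
    exact ⟨h1, h2, h3, h4, f, L₂, fun L _ hL => (hf L hL).2⟩

end Pool.Agent.Results.MP_0f69bf_mp.StabilizerHamiltonians
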