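import Mathlib
import Pool.Agent.R947.PT.Prime2
import Pool.Agent.Results.MP_0f69bf_mp.PeriodicMarginals

/-!
# Local PEPS approximation when the size dependence is decided by tilings and by primality

Let `ψ L` be the unique ground states of a gapped translation invariant Hamiltonian on the `L × L`
tori and let `R` be a finite region. It is not known whether the reduced states on `R` converge as
`L → ∞`, and nothing prevents a complicated dependence on `L`. The known mechanism for translation
invariant Hamiltonians whose phase depends on the size of the torus is a classical one: finitely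
many sets of Wang tiles, which tile the `L × L` torus for some `L` and not for other `L`.

Theorem. Let `T 0, ..., T (k - 1)` be arbitrary finite sets of Wang tiles, `q ≥ 1`, and suppose that
for all large `L`, `L'` such that the same members of the family tile the `L × L` and the `L' × L'`
torus, `L ≡ L'` modulo `q` and `L`, `L'` are both prime or both not prime, the reduced states agree up
to `ε / (4 d ^ (2 |R|))` in all entries. Then ONE translationally invariant tensor, of an explicit
bond dimension, has nonzero PEPS vectors on all large tori and reproduces all these reduced states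
up to `ε` in trace norm, as the conclusion of the problem asks for. So a gapped family whose size
dependence is computed by tilings, residues and primality is no counterexample to Q1.

(Torus tilings can simulate Turing machines, so the sets of sizes which are tiled can be very
complicated; this is not used and not proved here. The set of the primes is not eventually periodic.)

Proof. A scalar network (a tensor without physical index) which counts tilings has value `≥ 1` or
`0`. For the primes the following network works: vertical, horizontal and diagonal lines on the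
torus such that at no site exactly two of the three meet and no two diagonals are adjacent, with
weight `16` at the triple points. For composite `L` the grid whose spacing is the least prime factor
of `L` has at least `L` triple points and weight at least `16 ^ L`. For prime `L` a grid with a triple
point has only one line of each kind and the value of the network is at most `80 * 2 ^ L`. The
network with value `4 ^ L` lies between. Direct sums of tensor products of such networks with block
states follow the size dependence.
-/

set_option autoImplicit false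

open Pool.Agent.H4R2
open Pool.Agent.Results.MP_0f69bf_mp.PeriodicMarginals (Approximable)

namespace Pool.Agent.Results.MP_0f69bf_mp.TilingsAndPrimes

/-- The set `T` of Wang tiles with colours `0, ..., m` (`T l r u n`: there is a tile with left colour
`l`, right colour `r`, upper colour `u`, lower colour `n`) tiles the `L × L` torus: the edges to the
right of the sites have the colours `h x` and those above the sites the colours `v x`. -/
def TilesTorus {m : ℕ} (T : Fin (m + 1) → Fin (m + 1) → Fin (m + 1) → Fin (m + 1) → Prop) (L : ℕ) :
    Prop :=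
  ∃ h v : ZMod L × ZMod L → Fin (m + 1), ∀ x : ZMod L × ZMod L,
    T (h (x.1 - 1, x.2)) (h x) (v x) (v (x.1, x.2 - 1))

/-- The sizes `L` and `L'` are tiled by the same members of the family `T` of tile sets, are
congruent modulo `q`, and are both prime or both not prime. -/
def SameType {k m : ℕ}
    (T : Fin k → Fin (m + 1) → Fin (m + 1) → Fin (m + 1) → Fin (m + 1) → Prop) (q L L' : ℕ) : Prop :=
  (∀ i, TilesTorus (T i) L ↔ TilesTorus (T i) L') ∧ L % q = L' % q ∧ (L.Prime ↔ L'.Prime)

/-- The reduced states on `R` of large sizes of the same type agree up to `δ` in all entries. -/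
def CloseOnTypes {d k m : ℕ}
    (T : Fin k → Fin (m + 1) → Fin (m + 1) → Fin (m + 1) → Fin (m + 1) → Prop) (q : ℕ)
    (R : Finset (ℤ × ℤ)) (ψ : ∀ (L : ℕ) [NeZero L], (Site L → Fin d) → ℂ) (δ : ℝ) : Prop :=
  ∃ L₂ : ℕ, ∀ (L L' : ℕ) [NeZero L] [NeZero L'], L₂ ≤ L → L₂ ≤ L' → SameType T q L L' →
    ∀ a b, ‖redState R (ψ L) a b - redState R (ψ L') a b‖ ≤ δ

/-- **Theorem.** -/
theorem result (d : ℕ) (hd : 2 ≤ d) (B : Finset (ℤ × ℤ)) (h : Matrix (B → Fin d) (B → Fin d) ℂ)
    (ψ : ∀ (L : ℕ) [NeZero L], (Site L → Fin d) → ℂ) (_ : h.IsHermitian)
    (hgap : GappedFamily B h ψ) (R : Finset (ℤ × ℤ)) :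
    -- (1) one tensor of explicit bond dimension
    (∀ ε : ℝ, 0 < ε → ∀ (k m q : ℕ)
      (T : Fin k → Fin (m + 1) → Fin (m + 1) → Fin (m + 1) → Fin (m + 1) → Prop), 0 < q →
      CloseOnTypes T q R ψ (ε / (4 * ((d : ℝ) ^ R.card) ^ 2)) →
      Approximable R ψ ε (2 ^ (k + 3) * q ^ 2 * (m + 1) ^ k * bondDim d R ε)) ∧
    -- (2) the types may become finer with the accuracy
    ((∀ δ : ℝ, 0 < δ → ∃ (k m q : ℕ)
        (T : Fin k → Fin (m + 1) → Fin (m + 1) → Fin (m + 1) → Fin (m + 1) → Prop), 0 < q ∧
        CloseOnTypes T q R ψ δ) →
      ∀ ε : ℝ, 0 < ε → ∃ D : ℕ, Approximable R ψ ε D) := by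
  classical
  have h1 : ∀ ε : ℝ, 0 < ε → ∀ (k m q : ℕ)
      (T : Fin k → Fin (m + 1) → Fin (m + 1) → Fin (m + 1) → Fin (m + 1) → Prop), 0 < q →
      CloseOnTypes T q R ψ (ε / (4 * ((d : ℝ) ^ R.card) ^ 2)) →
      Approximable R ψ ε (2 ^ (k + 3) * q ^ 2 * (m + 1) ^ k * bondDim d R ε) := by
    intro ε hε k m q T hq hc
    have : NeZero q := ⟨by omega⟩
    have f1 := Pool.Agent.R947.PT.followed_fin k (fun i L => decide (Pool.Agent.R947.PT.Tiles (T i) L))
      (fun i => Pool.Agent.R947.PT.followed_tiles (T i))
    have f2 := Pool.Agent.R947.PT.followed_prod f1 (Pool.Agent.R947.PT.followed_prod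
      (Pool.Agent.TH64.PerNet.followed_residue q) Pool.Agent.R947.PT.followed_prime)
    have f3 := PeriodicMarginals.follow d hd R ε hε B h ψ hgap
      ((Fin k → Bool) × (ZMod q × Bool)) _ _ f2 (by
        obtain ⟨L₂, hL₂⟩ := hc
        refine ⟨L₂, fun L L' _ _ k1 k2 k3 => hL₂ L L' k1 k2 ?_⟩
        simp only [Prod.mk.injEq] at k3
        obtain ⟨e1, e2, e3⟩ := k3
        refine ⟨fun i => ?_, (ZMod.natCast_eq_natCast_iff' _ _ _).mp e2, ?_⟩
        · have := congrFun e1 i
          simp only [decide_eq_decide] at this
          exact this
        · simpa only [decide_eq_decide] using e3)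
    have f4 : Fintype.card ((Fin k → Bool) × (ZMod q × Bool)) *
        (bondDim d R ε * ((m + 1) ^ k * (q * 4))) =
        2 ^ (k + 3) * q ^ 2 * (m + 1) ^ k * bondDim d R ε := by
      rw [Fintype.card_prod, Fintype.card_prod, ZMod.card, Fintype.card_bool, Fintype.card_fun,
        Fintype.card_bool, Fintype.card_fin]
      ring
    rwa [f4] at f3
  refine ⟨h1, fun hlp ε hε => ?_⟩
  have hdp : (0 : ℝ) < (d : ℝ) ^ R.card := by
    have : (0 : ℝ) < d := by exact_mod_cast (by omega : 0 < d)
    positivity
  obtain ⟨k, m, q, T, hq, hc⟩ := hlp (ε / (4 * ((d : ℝ) ^ R.card) ^ 2)) (by positivity)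
  exact ⟨_, h1 ε hε k m q T hq hc⟩

end Pool.Agent.Results.MP_0f69bf_mp.TilingsAndPrimes
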